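import Mathlib
import Pool.Agent.L0h42.CL.Stm

/-! Module BD of the project CL: summation over all the systems. -/

set_option autoImplicit false

namespace Pool.Agent.L0h4.CL
open Finset
open Pool.Agent.L0h42.CL
open Pool.Agent.L0h42.TB
open Pool.Agent.H373R2.T7
open Pool.Agent.H807R2.Dav

lemma nd_nonneg (x : ℝ) : 0 ≤ nd x := abs_nonneg _

lemma mn_nonneg (V : ℕ) (x : ℝ) : 0 ≤ mn V x := by
  unfold mn
  have h : (0 : ℝ) < max 1 (V * nd x) := lt_of_lt_of_le one_pos (le_max_left _ _)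
  positivity

lemma WD_nonneg (a0 : ℤ) (T D : ℕ) (α : ℝ) : 0 ≤ WD a0 T D α := by
  unfold WD
  have h : 0 ≤ ∑ j ∈ Icc 1 (T / D + 1), mn (T / D + 1) (2 * a0 * (D : ℝ) ^ 2 * j * α) :=
    sum_nonneg fun _ _ => mn_nonneg _ _
  positivity

/-- the integral of one modulus -/
noncomputable def II (a0 : ℤ) (T D z Y : ℕ) : ℝ :=
  ∫ α in (0 : ℝ)..1, WD a0 T D α * ‖∑ n ∈ Icc 1 Y, ((dl z n : ℝ) : ℂ) * ee (n * α)‖ ^ 2

lemma II_nonneg (a0 : ℤ) (T D z Y : ℕ) : 0 ≤ II a0 T D z Y := by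
  unfold II
  apply intervalIntegral.integral_nonneg zero_le_one
  intro α _
  exact mul_nonneg (WD_nonneg _ _ _ _) (by positivity)

/-- the Cauchy-Schwarz inequality over the moduli -/
lemma cs_QQ (N c : ℕ) (I : ℕ → ℝ) (hI : ∀ q, 0 ≤ I q) (W : ℝ) (hW : ∑ q ∈ QQ N, (q : ℝ) * I q ≤ W) :
    ∑ q ∈ QQ N, (c : ℝ) ^ q.primeFactors.card * √(I q) ≤ √((1 + Real.log N) ^ (2 ^ (2 * c))) * √W := by
  have hW0 : 0 ≤ W := le_trans (sum_nonneg fun q _ => mul_nonneg (Nat.cast_nonneg _) (hI q)) hW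
  have h1 : ∀ q ∈ QQ N, (c : ℝ) ^ q.primeFactors.card * √(I q) ≤ √((q.divisors.card : ℝ) ^ (2 * c) / q) * √((q : ℝ) * I q) := by
    intro q hq
    rw [mem_QQ] at hq
    obtain ⟨hq1, hqs, _⟩ := hq
    have hq0 : (0 : ℝ) < q := by exact_mod_cast hq1
    rw [← Real.sqrt_mul (by positivity)]
    have e1 : (q.divisors.card : ℝ) ^ (2 * c) / q * (q * I q) = ((q.divisors.card : ℝ) ^ c) ^ 2 * I q := by
      field_simp
      ring
    rw [e1, Real.sqrt_mul (by positivity), Real.sqrt_sq (by positivity)]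
    apply mul_le_mul_of_nonneg_right _ (Real.sqrt_nonneg _)
    rw [card_div_sqf hqs]
    push_cast
    rw [← pow_mul, mul_comm q.primeFactors.card c, pow_mul]
    apply pow_le_pow_left₀ (Nat.cast_nonneg _)
    have : c ≤ 2 ^ c := Nat.lt_two_pow_self.le
    exact_mod_cast this
  refine (sum_le_sum h1).trans ?_
  have h2 := Real.sum_mul_le_sqrt_mul_sqrt (QQ N) (fun q : ℕ => √((q.divisors.card : ℝ) ^ (2 * c) / q)) (fun q : ℕ => √((q : ℝ) * I q))
  refine h2.trans ?_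
  apply mul_le_mul _ _ (Real.sqrt_nonneg _) (Real.sqrt_nonneg _)
  · apply Real.sqrt_le_sqrt
    have h3 : ∑ q ∈ QQ N, √((q.divisors.card : ℝ) ^ (2 * c) / q) ^ 2 ≤ ∑ q ∈ Icc 1 N, (q.divisors.card : ℝ) ^ (2 * c) / q := by
      have h4 : ∀ q ∈ QQ N, √((q.divisors.card : ℝ) ^ (2 * c) / q) ^ 2 = (q.divisors.card : ℝ) ^ (2 * c) / q := by
        intro q _
        exact Real.sq_sqrt (by positivity)
      rw [sum_congr rfl h4]
      exact sum_le_sum_of_subset_of_nonneg (filter_subset _ _) fun _ _ _ => by positivity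
    exact h3.trans (tau_pow_div _ _)
  · apply Real.sqrt_le_sqrt
    refine le_trans (le_of_eq ?_) hW
    apply sum_congr rfl
    intro q _
    exact Real.sq_sqrt (mul_nonneg (Nat.cast_nonneg _) (hI q))

set_option maxHeartbeats 4000000 in
open Classical in
/-- **BD.** -/
theorem t_BD (hCL : S_CL) (hIN : S_IN) : S_BD := by
  intro k A B K' hk a0 b0 ha0 h hinj
  obtain ⟨K, hK⟩ : ∃ K : ℕ, K = k + ∑ l, 2 * a0.toNat * (h l + 1) := ⟨_, rfl⟩
  have hkK : k ≤ K := by omega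
  have hK1 : 1 ≤ K := by omega
  have hKl : ∀ l, 2 * a0 * ((h l : ℤ) + 1) ≤ K := by
    intro l
    have e1 : 2 * a0.toNat * (h l + 1) ≤ K := by
      have := single_le_sum (f := fun l => 2 * a0.toNat * (h l + 1)) (s := univ) (fun _ _ => Nat.zero_le _) (mem_univ l)
      omega
    have e2 : ((a0.toNat : ℕ) : ℤ) = a0 := Int.toNat_of_nonneg (by omega)
    have e3 : ((2 * a0.toNat * (h l + 1) : ℕ) : ℤ) ≤ (K : ℤ) := by exact_mod_cast e1
    push_cast at e3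
    rw [← e2]
    linarith
  obtain ⟨c, hc⟩ : ∃ c, c = k * 2 ^ (2 * k + 1) * K := ⟨_, rfl⟩
  obtain ⟨P, hP⟩ : ∃ P, P = 2 ^ (2 * c) := ⟨_, rfl⟩
  obtain ⟨U, hU⟩ : ∃ U, U = A + 2 * B + P + (K' + 1) := ⟨_, rfl⟩
  obtain ⟨E1, h1⟩ := hIN a0 ha0 (2 * U) K'
  refine ⟨max E1 1, fun E => ?_⟩
  obtain ⟨m1, h1⟩ := h1 E
  obtain ⟨m3, h3⟩ := log_le_t K'
  obtain ⟨m4, h4⟩ := ev_L' (K + 2)
  refine ⟨max (max m1 1) (max m3 m4), ?_⟩
  intro N hN z R X T1 T2 r hz1 hz2 hR1 hR hX hT12 hT1 hT2 hzN hg i Λ hΛ hsupp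
  have n1 : m1 ≤ N := le_trans (le_trans (le_max_left _ _) (le_max_left _ _)) hN
  have hN1 : 1 ≤ N := le_trans (le_trans (le_max_right _ _) (le_max_left _ _)) hN
  have n3 : m3 ≤ N := le_trans (le_trans (le_max_left _ _) (le_max_right _ _)) hN
  have n4 : m4 ≤ N := le_trans (le_trans (le_max_right _ _) (le_max_right _ _)) hN
  have hN0 : (0 : ℝ) < N := by exact_mod_cast hN1
  obtain ⟨t, ht0, ht40, hsq⟩ := exists_t N hN1
  have hLm := h3 N n3 t ht0 ht40 hsq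
  have hLK := h4 N n4
  have hz1' : Real.log N ^ E1 ≤ z := by
    refine le_trans (pow_le_pow_right₀ ?_ (le_max_left _ _)) hz1
    have : (0 : ℝ) ≤ K := Nat.cast_nonneg _
    linarith
  have hz1'' : Real.log N ≤ z := by
    refine le_trans ?_ hz1
    have h5 : (1 : ℝ) ≤ Real.log N := by
      have : (0 : ℝ) ≤ K := Nat.cast_nonneg _
      linarith
    exact le_self_pow₀ h5 (by omega)
  obtain ⟨T, hT⟩ : ∃ T, T = T2 - T1 := ⟨_, rfl⟩
  have hTr : ((T2 : ℝ) - T1) = T := by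
    rw [hT, Nat.cast_sub hT12]
  rw [← hT] at hT2
  rw [hTr] at hT1 ⊢
  have hint := h1 N n1 z T N hz1' hz2 hT1 hT2 le_rfl
  set L := Real.log N with hLd
  have hKr : (1 : ℝ) ≤ K := by exact_mod_cast hK1
  have hL2 : 2 ≤ L := by linarith
  have hL1 : 1 ≤ L := by linarith
  have hL0 : 0 < L := by linarith
  have hzK : K ≤ z := by
    have : (K : ℝ) ≤ z := by linarith
    exact_mod_cast this
  -- the interval is not empty
  have hT0 : 1 ≤ T := by
    by_contra hcon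
    have : T = 0 := by omega
    rw [this] at hT1
    norm_num at hT1
    linarith
  have hXN : X ≤ N := by
    have := (hg (T1 + 1) (by rw [mem_Ioc]; omega) i).2
    have h6 := (hg (T1 + 1) (by rw [mem_Ioc]; omega) i).1
    have h7 : (X : ℤ) ≤ N := by
      have : (0 : ℤ) ≤ z := Int.natCast_nonneg _
      linarith
    exact_mod_cast h7
  -- the moduli are small
  have ht1 : 1 ≤ t := le_trans (one_le_pow₀ hL1) hLm
  have hqX : ∀ q ∈ QQ N, q ≤ X := by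
    intro q hq
    rw [mem_QQ] at hq
    obtain ⟨_, _, hq3⟩ := hq
    have h5 : (q : ℝ) ≤ t ^ 2 := by
      apply le_of_pow_le_pow_left₀ (n := 20) (by norm_num) (by positivity)
      rw [← pow_mul]
      norm_num
      rw [ht40]
      exact_mod_cast hq3
    have hLp : 0 < L ^ K' := by positivity
    have h6 : (q : ℝ) * L ^ K' ≤ X * L ^ K' := by
      calc (q : ℝ) * L ^ K' ≤ t ^ 2 * t := mul_le_mul h5 hLm hLp.le (by positivity)
        _ = t ^ 3 := by ring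
        _ ≤ t ^ 40 := pow_le_pow_right₀ ht1 (by norm_num)
        _ = N := ht40
        _ ≤ X * L ^ K' := hX
    have h7 : (q : ℝ) ≤ X := le_of_mul_le_mul_right h6 hLp
    exact_mod_cast h7
  -- one system
  obtain ⟨M, hM⟩ : ∃ M : ℕ → ℝ, M = fun q => (K : ℝ) ^ q.primeFactors.card * √(II a0 T q z N) := ⟨_, rfl⟩
  have hM0 : ∀ q, 0 ≤ M q := by
    intro q
    rw [hM]
    positivity
  obtain ⟨G, hG⟩ : ∃ G : Finset ((Fin k → ℕ) × (Fin k → ℕ)), G = (NCF k z R).filter (fun x => Λ x.1 ≠ 0 ∧ Λ x.2 ≠ 0) := ⟨_, rfl⟩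
  have hGp : ∀ x ∈ G, x ∈ NCF k z R ∧ x.1 ∈ PD (Fin k) z R ∧ x.2 ∈ PD (Fin k) z R ∧ ∏ l, x.1 l ≤ R ∧ ∏ l, x.2 l ≤ R ∧
      ∀ l m, l ≠ m → (lc x l).Coprime (lc x m) := by
    intro x hx
    rw [hG, mem_filter] at hx
    obtain ⟨hx1, hx2, hx3⟩ := hx
    have hx4 := hx1
    unfold NCF at hx4
    rw [mem_filter, mem_product] at hx4
    refine ⟨hx1, hx4.1.1, hx4.1.2, (hsupp _ hx2).1, (hsupp _ hx3).1, ?_⟩
    have h5 := hx4.2
    unfold Conf at h5
    rw [not_not] at h5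
    exact h5
  have hone : ∀ S ∈ (pz z).powerset.filter (fun S => S.card < r), ∀ x ∈ G,
      ∑ a ∈ Icc 1 X, |∑ t ∈ TT a0 b0 h T1 T2 (lc x) S a, dl z (va a0 b0 a (t + h i))| ≤
        √(2 * X) * ((k : ℝ) ^ S.card * M ((∏ p ∈ S, p) * ∏ l, lc x l)) := by
    intro S hS x hx
    rw [mem_filter, mem_powerset] at hS
    obtain ⟨g0, g1, g2, g3, g4, g5⟩ := hGp x hx
    rw [hG, mem_filter] at hx
    have hDi : lc x i = 1 := by
      unfold lc
      rw [(hsupp _ hx.2.1).2, (hsupp _ hx.2.2).2]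
      simp
    have hq := modulus_mem hzN hR hS.1 hS.2 g1 g2 g3 g4 g5
    have h5 := hCL k K a0 b0 h i z R X N T1 T2 ha0 hinj hKl hkK hzK hT12 hg S hS.1 x g0 hDi (hqX _ hq)
    rw [← hT] at h5
    refine h5.trans ?_
    rw [hM]
    simp only
    have h6 : (K : ℝ) ^ S.card ≤ (k : ℝ) ^ S.card * (K : ℝ) ^ ((∏ p ∈ S, p) * ∏ l, lc x l).primeFactors.card := by
      have h7 : (1 : ℝ) ≤ (k : ℝ) ^ S.card := one_le_pow₀ (by exact_mod_cast hk)
      have h8 : S.card ≤ ((∏ p ∈ S, p) * ∏ l, lc x l).primeFactors.card := by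
        apply card_le_card
        intro p hp
        rw [Nat.mem_primeFactors]
        refine ⟨(mem_pz.1 (hS.1 hp)).2, (dvd_prod_of_mem (fun p => p) hp).mul_right _, ?_⟩
        have := (mem_QQ.1 hq).1
        omega
      calc (K : ℝ) ^ S.card ≤ (K : ℝ) ^ ((∏ p ∈ S, p) * ∏ l, lc x l).primeFactors.card := pow_le_pow_right₀ hKr h8
        _ ≤ _ := le_mul_of_one_le_left (by positivity) h7
    calc (K : ℝ) ^ S.card * (√(2 * X) * √(II a0 T ((∏ p ∈ S, p) * ∏ l, lc x l) z N)) ≤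
          ((k : ℝ) ^ S.card * (K : ℝ) ^ ((∏ p ∈ S, p) * ∏ l, lc x l).primeFactors.card) * (√(2 * X) * √(II a0 T ((∏ p ∈ S, p) * ∏ l, lc x l) z N)) :=
          mul_le_mul_of_nonneg_right h6 (by positivity)
      _ = _ := by ring
  -- the sum over the systems
  have hsum1 : ∑ x ∈ NCF k z R, |Λ x.1 * Λ x.2| * ∑ S ∈ (pz z).powerset.filter (fun S => S.card < r),
      ∑ a ∈ Icc 1 X, |∑ t ∈ TT a0 b0 h T1 T2 (lc x) S a, dl z (va a0 b0 a (t + h i))| ≤
      ∑ x ∈ G, (L ^ B) ^ 2 * ∑ S ∈ (pz z).powerset.filter (fun S => S.card < r), √(2 * X) * ((k : ℝ) ^ S.card * M ((∏ p ∈ S, p) * ∏ l, lc x l)) := by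
    have h5 : ∑ x ∈ NCF k z R, |Λ x.1 * Λ x.2| * ∑ S ∈ (pz z).powerset.filter (fun S => S.card < r),
        ∑ a ∈ Icc 1 X, |∑ t ∈ TT a0 b0 h T1 T2 (lc x) S a, dl z (va a0 b0 a (t + h i))| =
        ∑ x ∈ G, |Λ x.1 * Λ x.2| * ∑ S ∈ (pz z).powerset.filter (fun S => S.card < r),
        ∑ a ∈ Icc 1 X, |∑ t ∈ TT a0 b0 h T1 T2 (lc x) S a, dl z (va a0 b0 a (t + h i))| := by
      rw [hG, sum_filter]
      apply sum_congr rfl
      intro x _
      split_ifs with h6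
      · rfl
      · have h7 : Λ x.1 * Λ x.2 = 0 := by
          by_contra h8
          exact h6 (mul_ne_zero_iff.1 h8)
        rw [h7, abs_zero, zero_mul]
    rw [h5]
    apply sum_le_sum
    intro x hx
    obtain ⟨g0, g1, g2, g3, g4, g5⟩ := hGp x hx
    apply mul_le_mul
    · rw [abs_mul, sq]
      exact mul_le_mul (hΛ _ g1) (hΛ _ g2) (abs_nonneg _) (by positivity)
    · exact sum_le_sum fun S hS => hone S hS x hx
    · exact sum_nonneg fun S _ => sum_nonneg fun a _ => abs_nonneg _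
    · positivity
  refine hsum1.trans ?_
  have hsum2 : ∑ x ∈ G, (L ^ B) ^ 2 * ∑ S ∈ (pz z).powerset.filter (fun S => S.card < r), √(2 * X) * ((k : ℝ) ^ S.card * M ((∏ p ∈ S, p) * ∏ l, lc x l)) =
      (L ^ B) ^ 2 * (√(2 * X) * ∑ y ∈ ((pz z).powerset.filter (fun S => S.card < r)) ×ˢ G, (k : ℝ) ^ y.1.card * M ((∏ p ∈ y.1, p) * ∏ l, lc y.2 l)) := by
    rw [← mul_sum, sum_comm, ← sum_product', ← mul_sum]
  rw [hsum2]
  have hfib := fibre_bound hk z N R r hzN hR G (fun x hx => (hGp x hx).2) M hM0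
  have hcs := cs_QQ N c (fun q => II a0 T q z N) (fun q => II_nonneg _ _ _ _ _) (N ^ 2 / L ^ (2 * U)) hint
  have hfib2 : ∑ q ∈ QQ N, ((k * 2 ^ (2 * k + 1) : ℕ) : ℝ) ^ q.primeFactors.card * M q =
      ∑ q ∈ QQ N, (c : ℝ) ^ q.primeFactors.card * √(II a0 T q z N) := by
    apply sum_congr rfl
    intro q _
    rw [hM, hc]
    simp only
    push_cast
    ring
  rw [hfib2] at hfib
  have hall := hfib.trans hcs
  -- the sizes
  have e1 : √((1 + L) ^ (2 ^ (2 * c))) ≤ L ^ P := by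
    rw [Real.sqrt_le_left (by positivity), ← hP, ← pow_mul, mul_comm P 2, pow_mul]
    apply pow_le_pow_left₀ (by positivity)
    nlinarith
  have e2 : √((N : ℝ) ^ 2 / L ^ (2 * U)) = N / L ^ U := by
    have : (N : ℝ) ^ 2 / L ^ (2 * U) = (N / L ^ U) ^ 2 := by
      rw [div_pow, ← pow_mul, mul_comm U 2]
    rw [this, Real.sqrt_sq (by positivity)]
  have e3 : √(2 * (X : ℝ)) ≤ T * L ^ (K' + 1) := by
    rw [Real.sqrt_le_left (by positivity)]
    have hXr : (X : ℝ) ≤ N := by exact_mod_cast hXN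
    calc 2 * (X : ℝ) ≤ L * ((T : ℝ) ^ 2 * L ^ K') := mul_le_mul hL2 (hXr.trans hT1) (Nat.cast_nonneg _) hL0.le
      _ = (T : ℝ) ^ 2 * L ^ (K' + 1) := by ring
      _ ≤ (T : ℝ) ^ 2 * (L ^ (K' + 1) * L ^ (K' + 1)) := by
          apply mul_le_mul_of_nonneg_left _ (by positivity)
          exact le_mul_of_one_le_left (by positivity) (one_le_pow₀ hL1)
      _ = _ := by ring
  rw [e2] at hall
  calc (L ^ B) ^ 2 * (√(2 * X) * ∑ y ∈ ((pz z).powerset.filter (fun S => S.card < r)) ×ˢ G, (k : ℝ) ^ y.1.card * M ((∏ p ∈ y.1, p) * ∏ l, lc y.2 l))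
      ≤ (L ^ B) ^ 2 * ((T * L ^ (K' + 1)) * (L ^ P * (N / L ^ U))) := by
        apply mul_le_mul_of_nonneg_left _ (by positivity)
        apply mul_le_mul e3 _ _ (by positivity)
        · exact hall.trans (mul_le_mul_of_nonneg_right e1 (by positivity))
        · exact sum_nonneg fun y _ => mul_nonneg (by positivity) (hM0 _)
    _ = _ := by
        rw [hU]
        have e4 : L ^ (A + 2 * B + P + (K' + 1)) = L ^ A * (L ^ B) ^ 2 * L ^ P * L ^ (K' + 1) := by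
          ring
        rw [e4]
        field_simp

end Pool.Agent.L0h4.CL
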